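import Pool.Agent.Helper14.LK.St
import Pool.Agent.Helper14.LK.Basic

/-!
# Project LK (MP_58b586_gt), module HAM: a symplectic isotopy is Hamiltonian
-/

set_option autoImplicit false

namespace Pool.Agent.Helper9.LK

open Pool.Agent.Helper14.LK
open scoped ContDiff Topology
open MeasureTheory Set Filter

/-- HAM -/
theorem hHAM (hPOI : StPOI) : StHAM := by
  intro n hn Φ Φi R hΦ hΦi hinv1 hinv2 hsymp hid
  have hΨd : Differentiable ℝ (Function.uncurry Φ) := hΦ.differentiable (by simp)
  have hΨid : Differentiable ℝ (Function.uncurry Φi) := hΦi.differentiable (by simp)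
  have hD1 : ContDiff ℝ ∞ (fderiv ℝ (Function.uncurry Φ)) := hΦ.fderiv_right (m := ∞) (by simp)
  have hD1d : Differentiable ℝ (fderiv ℝ (Function.uncurry Φ)) := hD1.differentiable (by simp)
  obtain ⟨Y, hYdef⟩ : ∃ Y : ℝ × WW n → WW n, ∀ p, Y p = fderiv ℝ (Function.uncurry Φ) p (1, 0) := ⟨_, fun _ => rfl⟩
  have hY : ContDiff ℝ ∞ Y := by
    have : Y = fun p => fderiv ℝ (Function.uncurry Φ) p (1, 0) := funext hYdef
    rw [this]
    exact hD1.clm_apply contDiff_const
  obtain ⟨X, hXdef⟩ : ∃ X : ℝ → WW n → WW n, ∀ r w, X r w = Y (r, Φi r w) := ⟨fun r w => Y (r, Φi r w), fun _ _ => rfl⟩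
  have hX : ContDiff ℝ ∞ (Function.uncurry X) := by
    have e : Function.uncurry X = fun p : ℝ × WW n => Y (p.1, Function.uncurry Φi p) := by
      funext p
      exact hXdef p.1 p.2
    rw [e]
    exact hY.comp (contDiff_fst.prodMk hΦi)
  have hXY : ∀ r w, X r (Φ r w) = Y (r, w) := by
    intro r w
    rw [hXdef, hinv2]
  have hXd : ∀ r, Differentiable ℝ (X r) := by
    intro r
    have h1 : Differentiable ℝ (Function.uncurry X) := hX.differentiable (by simp)
    exact h1.comp (differentiable_const r |>.prodMk differentiable_id)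
  have hΦd : ∀ r, Differentiable ℝ (Φ r) := fun r =>
    hΨd.comp (differentiable_const r |>.prodMk differentiable_id)
  have hΦid : ∀ r, Differentiable ℝ (Φi r) := fun r =>
    hΨid.comp (differentiable_const r |>.prodMk differentiable_id)
  -- partial derivatives
  have hpart : ∀ r w a, fderiv ℝ (Φ r) w a = fderiv ℝ (Function.uncurry Φ) (r, w) (0, a) := by
    intro r w a
    have h1 := (hΨd (r, w)).hasFDerivAt
    have h2 : HasFDerivAt (fun w' : WW n => ((r, w') : ℝ × WW n)) (ContinuousLinearMap.inr ℝ ℝ (WW n)) w :=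
      hasFDerivAt_prodMk_right r w
    have h3 : HasFDerivAt (Φ r) ((fderiv ℝ (Function.uncurry Φ) (r, w)).comp (ContinuousLinearMap.inr ℝ ℝ (WW n))) w :=
      h1.comp w h2
    rw [h3.fderiv]
    rfl
  have hder : ∀ r w, HasDerivAt (fun s => Φ s w) (Y (r, w)) r := by
    intro r w
    have h1 := (hΨd (r, w)).hasFDerivAt
    have h2 : HasDerivAt (fun s : ℝ => ((s, w) : ℝ × WW n)) ((1 : ℝ), (0 : WW n)) r :=
      (hasDerivAt_id r).prodMk (hasDerivAt_const r w)
    have h3 := h1.comp_hasDerivAt r h2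
    rw [hYdef]
    exact h3
  have hsymm : ∀ p : ℝ × WW n, ∀ v w, fderiv ℝ (fderiv ℝ (Function.uncurry Φ)) p v w =
      fderiv ℝ (fderiv ℝ (Function.uncurry Φ)) p w v := by
    intro p v w
    have h1 : IsSymmSndFDerivAt ℝ (Function.uncurry Φ) p :=
      hΦ.contDiffAt.isSymmSndFDerivAt (by simp only [minSmoothness_of_isRCLikeNormedField]; exact WithTop.coe_le_coe.2 le_top)
    exact h1 v w
  have hsec : ∀ r w a, HasDerivAt (fun s => fderiv ℝ (Φ s) w a)
      (fderiv ℝ (X r) (Φ r w) (fderiv ℝ (Φ r) w a)) r := by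
    intro r w a
    have e1 : (fun s => fderiv ℝ (Φ s) w a) = fun s => fderiv ℝ (Function.uncurry Φ) (s, w) (0, a) := by
      funext s
      exact hpart s w a
    have h2 : HasDerivAt (fun s : ℝ => ((s, w) : ℝ × WW n)) ((1 : ℝ), (0 : WW n)) r :=
      (hasDerivAt_id r).prodMk (hasDerivAt_const r w)
    have h3 := (hD1d (r, w)).hasFDerivAt.comp_hasDerivAt r h2
    have h4 : HasDerivAt (fun s => fderiv ℝ (Function.uncurry Φ) (s, w) (0, a))
        (fderiv ℝ (fderiv ℝ (Function.uncurry Φ)) (r, w) (1, 0) (0, a)) r := by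
      have h5 := h3.clm_apply (hasDerivAt_const r ((0, a) : ℝ × WW n))
      simpa using h5
    rw [e1]
    convert h4 using 1
    rw [hsymm]
    -- the derivative of `Y (r, ·)`
    have h6 : HasFDerivAt (fun w' : WW n => Y (r, w'))
        ((ContinuousLinearMap.apply ℝ (WW n) ((1, 0) : ℝ × WW n)).comp
          ((fderiv ℝ (fderiv ℝ (Function.uncurry Φ)) (r, w)).comp (ContinuousLinearMap.inr ℝ ℝ (WW n)))) w := by
      have h7 : HasFDerivAt (fun w' : WW n => ((r, w') : ℝ × WW n)) (ContinuousLinearMap.inr ℝ ℝ (WW n)) w :=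
        hasFDerivAt_prodMk_right r w
      have h8 := (hD1d (r, w)).hasFDerivAt.comp w h7
      have h9 := (ContinuousLinearMap.apply ℝ (WW n) ((1, 0) : ℝ × WW n)).hasFDerivAt.comp w h8
      have e : (fun w' : WW n => Y (r, w')) = fun w' => (ContinuousLinearMap.apply ℝ (WW n) ((1, 0) : ℝ × WW n))
          (fderiv ℝ (Function.uncurry Φ) (r, w')) := by
        funext w'
        exact hYdef _
      rw [e]
      exact h9
    have h10 : HasFDerivAt (fun w' : WW n => Y (r, w'))
        ((fderiv ℝ (X r) (Φ r w)).comp (fderiv ℝ (Φ r) w)) w := by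
      have h11 := (hXd r (Φ r w)).hasFDerivAt.comp w (hΦd r w).hasFDerivAt
      have e : (fun w' : WW n => Y (r, w')) = X r ∘ Φ r := by
        funext w'
        exact (hXY r w').symm
      rw [e]
      exact h11
    have h12 := congrArg (fun T : WW n →L[ℝ] WW n => T a) (h10.unique h6)
    exact h12
  -- the one form
  obtain ⟨α, hαdef⟩ : ∃ α : ℝ → WW n → (WW n →L[ℝ] ℝ), ∀ r w, α r w = omL n (X r w) := ⟨_, fun _ _ => rfl⟩
  have hα : ContDiff ℝ ∞ (Function.uncurry α) := by
    have e : Function.uncurry α = fun p : ℝ × WW n => omL n (Function.uncurry X p) := by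
      funext p
      exact hαdef p.1 p.2
    rw [e]
    exact (omL n).contDiff.comp hX
  have hαf : ∀ r w a b, fderiv ℝ (α r) w a b = om (fderiv ℝ (X r) w a) b := by
    intro r w a b
    have h1 : HasFDerivAt (α r) ((omL n).comp (fderiv ℝ (X r) w)) w := by
      have e : α r = fun w' => omL n (X r w') := funext (hαdef r)
      rw [e]
      exact (omL n).hasFDerivAt.comp w (hXd r w).hasFDerivAt
    rw [h1.fderiv]
    exact omL_apply _ _
  have hclosed : ∀ r w a b, fderiv ℝ (α r) w a b = fderiv ℝ (α r) w b a := by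
    intro r w a b
    rw [hαf, hαf]
    -- preimages
    have hcomp : ∀ c, fderiv ℝ (Φ r) (Φi r w) (fderiv ℝ (Φi r) w c) = c := by
      intro c
      have h1 := (hΦd r (Φi r w)).hasFDerivAt.comp w (hΦid r w).hasFDerivAt
      have e : Φ r ∘ Φi r = id := by
        funext w'
        exact hinv1 r w'
      rw [e] at h1
      have h2 := congrArg (fun T : WW n →L[ℝ] WW n => T c) (h1.unique (hasFDerivAt_id w))
      exact h2
    set w0 := Φi r w with hw0
    set a0 := fderiv ℝ (Φi r) w a with ha0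
    set b0 := fderiv ℝ (Φi r) w b with hb0
    have hw : Φ r w0 = w := hinv1 r w
    have ha : fderiv ℝ (Φ r) w0 a0 = a := hcomp a
    have hb : fderiv ℝ (Φ r) w0 b0 = b := hcomp b
    have d1 := hsec r w0 a0
    have d2 := hsec r w0 b0
    rw [hw, ha] at d1
    rw [hw, hb] at d2
    have d3 : HasDerivAt (fun s => om (fderiv ℝ (Φ s) w0 a0) (fderiv ℝ (Φ s) w0 b0))
        (om (fderiv ℝ (X r) w a) b + om a (fderiv ℝ (X r) w b)) r := by
      have d4 : HasDerivAt (fun s => omL n (fderiv ℝ (Φ s) w0 a0)) (omL n (fderiv ℝ (X r) w a)) r :=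
        (omL n).hasFDerivAt.comp_hasDerivAt r d1
      have d5 := d4.clm_apply d2
      rw [ha, hb] at d5
      simpa using d5
    have d6 : HasDerivAt (fun s => om (fderiv ℝ (Φ s) w0 a0) (fderiv ℝ (Φ s) w0 b0)) 0 r := by
      have e : (fun s => om (fderiv ℝ (Φ s) w0 a0) (fderiv ℝ (Φ s) w0 b0)) = fun _ => om a0 b0 := by
        funext s
        exact hsymp s w0 a0 b0
      rw [e]
      exact hasDerivAt_const r _
    have d7 := d3.unique d6
    rw [om_antisymm a] at d7
    linarith
  have hvan : ∀ r w, R ≤ ‖w‖ → α r w = 0 := by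
    intro r w hw
    have h1 : Φi r w = w := by
      have := hinv2 r w
      rw [hid r w hw] at this
      exact this
    have h2 : Y (r, w) = 0 := by
      have h3 := hder r w
      have e : (fun s => Φ s w) = fun _ => w := by
        funext s
        exact hid s w hw
      rw [e] at h3
      exact h3.unique (hasDerivAt_const r w)
    rw [hαdef, hXdef, h1, h2, map_zero]
  have hdim : 2 ≤ Module.finrank ℝ (WW n) := by
    rw [Module.finrank_prod, finrank_euclideanSpace_fin]
    omega
  obtain ⟨h, h1, h2, h3⟩ := hPOI (WW n) hdim α hα hclosed R hvan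
  refine ⟨h, h1, h3, fun r w => ⟨Y (r, w), hder r w, fun b => ?_⟩⟩
  rw [h2, hαdef, hXY, omL_apply]

end Pool.Agent.Helper9.LK
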